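import Pool.Agent.Lib.MP_ff4305_al.Assemble
import Pool.Agent.Lib.MP_ff4305_al.Undecidable

/-!
A finitely presented `E`-unitary special inverse monoid whose monoid of images of right units is
right reversible, whose maximal group image has solvable word problem, and whose own word problem
is unsolvable.
-/

namespace Pool.Agent.Results.MP_ff4305_al.RightReversibleUndecidable

open Pool.Agent.MP_ff4305_al

/-- There are a finite alphabet `X` and a finite set of words `rels` over `X ∪ X⁻¹` such that the
special inverse monoid `S = Inv⟨X | w = 1 (w ∈ rels)⟩` is `E`-unitary, its submonoid `P` of the
maximal group image `Gp⟨X | w = 1 (w ∈ rels)⟩` (the image of the right units) is right reversible,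
the word problem of the maximal group image is solvable and the word problem of `S` is not. -/
theorem result : ∃ (n : ℕ) (rels : Set (Word (Fin n))), rels.Finite ∧
    IsEUnitary (SpecialInv rels) ∧ RightReversible (PrefMon rels) ∧
    GrpWPSolvable rels ∧ ¬ InvWPSolvable rels := by
  obtain ⟨m, q, R, fin, base, k0, f, hf, hund⟩ := exists_undecidable_mstep
  exact main_of m q R fin base k0 f hf hund

end Pool.Agent.Results.MP_ff4305_al.RightReversibleUndecidable
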